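import Pool.Agent.helper55.FPZ.Spec

/-! # Row FT of project FPZ: a finite subfamily with the same annihilator -/

set_option autoImplicit false

namespace Pool.Agent.FPZ

open Matrix Polynomial Pool.Agent.PL Pool.Agent.X4

/-- the matrices which kill the tensors of a finite set -/
def FT_K (hDL : DL_stmt) {N : ℕ} (S : Finset (Σ m : ℕ, Tn N m ℚ)) :
    Submodule ℚ (Matrix (Fin N) (Fin N) ℚ) where
  carrier := {X | ∀ s ∈ S, der X s.1 s.2 = 0}
  add_mem' := by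
    intro X Y hX hY s hs
    rw [(hDL N s.1 ℚ X Y s.2 s.2 0).1, hX s hs, hY s hs, add_zero]
  zero_mem' := by
    intro s _
    have h := (hDL N s.1 ℚ 0 0 s.2 s.2 0).2.1
    rw [zero_smul, zero_smul] at h
    exact h
  smul_mem' := by
    intro c X hX s hs
    rw [(hDL N s.1 ℚ X X s.2 s.2 c).2.1, hX s hs, smul_zero]

theorem FT (hDL : DL_stmt) : FT_stmt := by
  classical
  intro N T
  have hex : ∃ n : ℕ, ∃ S : Finset (Σ m : ℕ, Tn N m ℚ), (∀ s ∈ S, s.2 ∈ T s.1) ∧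
      Module.finrank ℚ (FT_K hDL S) = n :=
    ⟨_, ∅, fun s hs => absurd hs (Finset.notMem_empty s), rfl⟩
  obtain ⟨S, hS, hfin⟩ := Nat.find_spec hex
  refine ⟨S, hS, ?_⟩
  intro X hX m t ht
  have hle : FT_K hDL (insert (⟨m, t⟩ : Σ m : ℕ, Tn N m ℚ) S) ≤ FT_K hDL S := by
    intro Y hY s hs
    exact hY s (Finset.mem_insert_of_mem hs)
  have hge : Nat.find hex ≤
      Module.finrank ℚ (FT_K hDL (insert (⟨m, t⟩ : Σ m : ℕ, Tn N m ℚ) S)) := by
    refine Nat.find_min' hex ⟨insert (⟨m, t⟩ : Σ m : ℕ, Tn N m ℚ) S, ?_, rfl⟩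
    intro s hs
    rcases Finset.mem_insert.1 hs with h | h
    · rw [h]; exact ht
    · exact hS s h
  have heq : FT_K hDL (insert (⟨m, t⟩ : Σ m : ℕ, Tn N m ℚ) S) = FT_K hDL S :=
    Submodule.eq_of_le_of_finrank_le hle (by rw [hfin]; exact hge)
  have hXm : X ∈ FT_K hDL (insert (⟨m, t⟩ : Σ m : ℕ, Tn N m ℚ) S) := by
    rw [heq]
    exact hX
  exact hXm ⟨m, t⟩ (Finset.mem_insert_self _ _)

end Pool.Agent.FPZ
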